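import Mathlib
import Pool.Agent.H.MP_629fb1_pr.A

set_option autoImplicit false
open MeasureTheory Finset Filter Topology Real
open scoped ENNReal Nat

namespace Pool.Agent.Results.MP_629fb1_pr.Thin

/-- standard complex Gaussian law -/
noncomputable def gam : Measure ℂ :=
  volume.withDensity (fun w => ENNReal.ofReal (Real.exp (-‖w‖ ^ 2) / π))

/-- the entire function with coefficients `ξ` -/
noncomputable def gef (ξ : ℕ → ℂ) (z : ℂ) : ℂ := ∑' n, ξ n * z ^ n / (√(n !) : ℝ)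

/-- probability of no zero in `rK` -/
noncomputable def hole (K : Set ℂ) (r : ℝ) : ℝ≥0∞ :=
  Measure.infinitePi (fun _ : ℕ => gam) {ξ | ∀ z ∈ K, gef ξ (r * z) ≠ 0}

/-- `n`-th Fekete diameter -/
noncomputable def fek (K : Set ℂ) (n : ℕ) : ℝ :=
  (⨆ z : Fin n → K, ∏ j, ∏ i ∈ Iio j, ‖(z j : ℂ) - z i‖) ^ (2 / ((n:ℝ) * (n - 1)))

/-- transfinite diameter -/
noncomputable def cap (K : Set ℂ) : ℝ := ⨅ n, fek K (n + 2)

/-- thin rectangle -/
def rect (ε : ℝ) : Set ℂ := {z | |z.re| ≤ 1 ∧ |z.im| ≤ ε}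

theorem result : IsProbabilityMeasure gam ∧ ∃ ε : ℝ, 0 < ε ∧
    IsCompact (rect ε) ∧ IsConnected (rect ε) ∧ (interior (rect ε)).Nonempty ∧
    (∃ δ : ℝ, δ < Real.exp 1 ^ 2 / 4 * cap (rect ε) ^ 4 ∧
      ∀ᶠ r : ℝ in atTop, ENNReal.ofReal (Real.exp (-δ * r ^ 4)) ≤ hole (rect ε) r) ∧
    ¬ Tendsto (fun r : ℝ => -Real.log (hole (rect ε) r).toReal / r ^ 4) atTop
      (𝓝 (Real.exp 1 ^ 2 / 4 * cap (rect ε) ^ 4)) := by
  have hp : IsProbabilityMeasure gam := Pool.Agent.H.MP_629fb1_pr.gam_prob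
  set c : ℝ := Real.exp 1 ^ 2 / 4 * Real.exp (-4) ^ 4 with hc
  have hc0 : 0 < c := by positivity
  set ε := min 1 (c / 1200) with hε
  have hε0 : 0 < ε := lt_min one_pos (by positivity)
  have hε1 : ε ≤ 1 := min_le_left _ _
  have hε2 : ε ≤ c / 1200 := min_le_right _ _
  have hb : ∀ z ∈ rect ε, ‖z‖ ≤ 2 := fun z hz => by
    have := Complex.norm_le_abs_re_add_abs_im z
    linarith [hz.1, hz.2]
  have hcap : Real.exp (-4) ≤ cap (rect ε) := le_ciInf fun n =>
    Pool.Agent.H.MP_629fb1_pr.vand _ hb (fun x h0 h1 => ⟨by simpa [abs_of_nonneg h0] using h1,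
      by simpa using hε0.le⟩) (n + 2) (by omega)
  have hlt : 600 * ε ^ 2 < Real.exp 1 ^ 2 / 4 * cap (rect ε) ^ 4 := by
    have : c ≤ Real.exp 1 ^ 2 / 4 * cap (rect ε) ^ 4 := by rw [hc]; gcongr
    nlinarith
  have hh : ∀ᶠ r : ℝ in atTop,
      ENNReal.ofReal (Real.exp (-(600 * ε ^ 2) * r ^ 4)) ≤ hole (rect ε) r :=
    Pool.Agent.H.MP_629fb1_pr.hole ε hε0 (by nlinarith)
  have hcl : IsClosed (rect ε) :=
    (isClosed_le (f := fun z : ℂ => |z.re|) (by fun_prop) continuous_const).inter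
      (isClosed_le (f := fun z : ℂ => |z.im|) (by fun_prop) continuous_const)
  have hcv : Convex ℝ (rect ε) := by
    have : rect ε = ({z : ℂ | -1 ≤ z.re} ∩ {z : ℂ | z.re ≤ 1}) ∩
        ({z : ℂ | -ε ≤ z.im} ∩ {z : ℂ | z.im ≤ ε}) := by
      ext z; simp [rect, abs_le]
    rw [this]
    exact ((convex_halfSpace_re_ge _).inter (convex_halfSpace_re_le _)).inter
      ((convex_halfSpace_im_ge _).inter (convex_halfSpace_im_le _))
  refine ⟨hp, ε, hε0, ?_, ?_, ?_, ⟨_, hlt, hh⟩, fun ht => ?_⟩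
  · exact (isCompact_closedBall (0:ℂ) 2).of_isClosed_subset hcl fun z hz => by simpa using hb z hz
  · exact ⟨⟨0, by simpa [rect] using hε0.le⟩, hcv.isPreconnected⟩
  · refine ⟨0, mem_interior.2 ⟨Metric.ball 0 ε, fun z hz => ?_, Metric.isOpen_ball,
      Metric.mem_ball_self hε0⟩⟩
    have h1 : ‖z‖ < ε := by simpa using hz
    exact ⟨by linarith [Complex.abs_re_le_norm z], by linarith [Complex.abs_im_le_norm z]⟩
  · refine absurd (le_of_tendsto ht ?_) (not_le.2 hlt)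
    filter_upwards [hh, eventually_gt_atTop 0] with r hr hr0
    have h1 := (ENNReal.ofReal_le_iff_le_toReal (measure_ne_top _ _)).1 hr
    have h2 := Real.log_le_log (Real.exp_pos _) h1
    rw [Real.log_exp] at h2
    rw [div_le_iff₀ (by positivity)]
    unfold hole
    linarith

end Pool.Agent.Results.MP_629fb1_pr.Thin
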